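import Pool.Agent.SynProd.Density

/-!
Every syndetic set of positive integers contains a product set `A * B` with `A` and `B` infinite.
-/

namespace Pool.Agent.Results.MP_2e62d5_co.SyndeticProduct

/-- Let `S` be a set of natural numbers which is syndetic: there is `L` such that every block
`{n, n + 1, ..., n + L}` with `1 ≤ n` meets `S`. Then there are infinite sets `A`, `B` of positive
integers with `a * b ∈ S` for all `a ∈ A` and `b ∈ B`. -/
theorem result (S : Set ℕ) (hS : ∃ L : ℕ, ∀ n : ℕ, 1 ≤ n → ∃ m ∈ S, n ≤ m ∧ m ≤ n + L) :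
    ∃ A B : Set ℕ, A.Infinite ∧ B.Infinite ∧ (∀ a ∈ A, 1 ≤ a) ∧ (∀ b ∈ B, 1 ≤ b) ∧
      ∀ a ∈ A, ∀ b ∈ B, a * b ∈ S := by
  obtain ⟨L, hL⟩ := hS
  obtain ⟨j, a, b, hj, ha, hb, hab⟩ := SynProd.syndetic_product S (L + 1) (by omega) (by
    intro N
    obtain ⟨m, hm, h1, h2⟩ := hL (N + 1) (by omega)
    exact ⟨m, hm, by omega, by omega⟩)
  have hja : ∀ τ, τ < j * a τ := fun τ =>
    lt_of_lt_of_le (ha τ) (Nat.le_mul_of_pos_left _ hj)
  refine ⟨Set.range (fun τ => j * a τ), Set.range b, ?_, ?_, ?_, ?_, ?_⟩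
  · refine Set.infinite_of_forall_exists_gt fun x => ?_
    exact ⟨_, ⟨x, rfl⟩, hja x⟩
  · refine Set.infinite_of_forall_exists_gt fun x => ?_
    exact ⟨_, ⟨x, rfl⟩, hb x⟩
  · rintro _ ⟨τ, rfl⟩
    exact lt_of_le_of_lt (Nat.zero_le _) (hja τ)
  · rintro _ ⟨τ, rfl⟩
    exact lt_of_le_of_lt (Nat.zero_le _) (hb τ)
  · rintro _ ⟨τ, rfl⟩ _ ⟨τ', rfl⟩
    exact hab τ τ'

end Pool.Agent.Results.MP_2e62d5_co.SyndeticProduct
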